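import Pool.Agent.Helper45.CF.GoalsC
import Pool.Agent.Helper61.CAR.AssemblyQ

/-!
# Project CF (MP_d97caa_an), second stage: PNT, property (N) of the two cones
-/

set_option autoImplicit false

open scoped ComplexOrder ZeroAtInfty Topology ComplexConjugate NNReal
open TopologicalSpace Filter

namespace Pool.Agent.Helper83.CF2.PNT

open Pool.Agent.Helper34.CAR Pool.Agent.Helper39.CR Pool.Agent.Helper45.CF
  Pool.Agent.Helper61.CAR

variable {E : Type} [NonUnitalCStarAlgebra E]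

theorem norm_le_c0 (f : C₀(ℝ≥0, E)) (c : ℝ) (hc : 0 ≤ c) (h : ∀ t, ‖f t‖ ≤ c) : ‖f‖ ≤ c := by
  rw [← ZeroAtInftyContinuousMap.norm_toBCF_eq_norm]
  exact (BoundedContinuousFunction.norm_le hc).2 h

theorem sum_apply_c0 {ι : Type} (s : Finset ι) (f : ι → C₀(ℝ≥0, E)) (t : ℝ≥0) :
    (∑ i ∈ s, f i) t = ∑ i ∈ s, f i t := by
  classical
  induction s using Finset.induction_on with
  | empty => simp
  | insert a s ha ih => rw [Finset.sum_insert ha, Finset.sum_insert ha, ← ih]; rfl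

theorem continuous_nnabs' : Continuous Real.nnabs := by
  refine NNReal.isEmbedding_coe.continuous_iff.2 ?_
  have : (NNReal.toReal ∘ fun t : ℝ => Real.nnabs t) = fun t => |t| := by
    funext t
    exact Real.coe_nnabs t
  exact this ▸ continuous_abs

theorem tendsto_nnabs : Tendsto Real.nnabs (cocompact ℝ) (cocompact ℝ≥0) := by
  rw [cocompact_eq_atTop (α := ℝ≥0), ← NNReal.tendsto_coe_atTop]
  have : (fun t : ℝ => ((Real.nnabs t : ℝ≥0) : ℝ)) = fun t => ‖t‖ := by
    funext t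
    rw [Real.coe_nnabs, Real.norm_eq_abs]
  rw [this]
  exact tendsto_norm_cocompact_atTop

/-- The even function on the line. -/
noncomputable def ev (f : C₀(ℝ≥0, E)) : C₀(ℝ, E) where
  toFun t := f (Real.nnabs t)
  continuous_toFun := f.continuous.comp continuous_nnabs'
  zero_at_infty' := (zero_at_infty f).comp tendsto_nnabs

theorem ev_apply (f : C₀(ℝ≥0, E)) (t : ℝ) : ev f t = f (Real.nnabs t) := rfl

/-- The function `r ↦ g r • x` on the half line. -/
noncomputable def rt (g : C₀(ℝ, ℝ)) (x : E) : C₀(ℝ≥0, E) where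
  toFun r := ((g (r : ℝ) : ℝ) : ℂ) • x
  continuous_toFun := by fun_prop
  zero_at_infty' := by
    have h1 : Tendsto (fun t : ℝ => ((g t : ℝ) : ℂ) • x) (cocompact ℝ)
        (𝓝 (((0 : ℝ) : ℂ) • x)) :=
      ((Complex.continuous_ofReal.tendsto 0).comp (zero_at_infty g)).smul_const x
    have h2 := h1.comp NNReal.isClosedEmbedding_coe.tendsto_cocompact
    simpa [Function.comp_def] using h2

theorem rt_apply (g : C₀(ℝ, ℝ)) (x : E) (r : ℝ≥0) :
    rt g x r = ((g (r : ℝ) : ℝ) : ℂ) • x := rfl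

theorem star_rt_mul (g : C₀(ℝ, ℝ)) (x y : E) (t : ℝ≥0) :
    (star (rt g x) * rt g y) t = ((g (t : ℝ) ^ 2 : ℝ) : ℂ) • (star x * y) := by
  have : (star (rt g x) * rt g y) t = star (rt g x t) * rt g y t := rfl
  rw [this, rt_apply, rt_apply, star_smul, smul_mul_smul_comm]
  congr 1
  rw [Complex.star_def, Complex.conj_ofReal]
  push_cast
  ring

theorem qf_rt {J : Type} [Fintype J] (a : CStarMatrix J J ℂ) (g : C₀(ℝ, ℝ)) (v : J → E)
    (t : ℝ≥0) :
    (qf a fun p => rt g (v p)) t = ((g (t : ℝ) ^ 2 : ℝ) : ℂ) • qf a v := by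
  unfold qf
  rw [sum_apply_c0, Finset.smul_sum]
  refine Finset.sum_congr rfl fun p _ => ?_
  rw [sum_apply_c0, Finset.smul_sum]
  refine Finset.sum_congr rfl fun q _ => ?_
  have : (a p q • (star (rt g (v p)) * rt g (v q))) t
      = a p q • (star (rt g (v p)) * rt g (v q)) t := rfl
  rw [this, star_rt_mul, smul_comm]

theorem qf_zero {R J : Type} [NonUnitalCStarAlgebra R] [Fintype J] (a : CStarMatrix J J ℂ) :
    qf a (fun _ : J => (0 : R)) = 0 := by
  unfold qf
  simp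

theorem qf_fst {R R' J : Type} [NonUnitalCStarAlgebra R] [NonUnitalCStarAlgebra R'] [Fintype J]
    (a : CStarMatrix J J ℂ) (v : J → R × R') : (qf a v).1 = qf a fun p => (v p).1 := by
  unfold qf
  rw [Prod.fst_sum]
  refine Finset.sum_congr rfl fun p _ => ?_
  rw [Prod.fst_sum]
  rfl

theorem qf_snd {R R' J : Type} [NonUnitalCStarAlgebra R] [NonUnitalCStarAlgebra R'] [Fintype J]
    (a : CStarMatrix J J ℂ) (v : J → R × R') : (qf a v).2 = qf a fun p => (v p).2 := by
  unfold qf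
  rw [Prod.snd_sum]
  refine Finset.sum_congr rfl fun p _ => ?_
  rw [Prod.snd_sum]
  rfl

/-- The component of a pair. -/
def sel (x : Two E) (k : Bool) : C₀(ℝ≥0, E) := if k then x.1 else x.2

/-- The block diagonal representation. -/
noncomputable def bs {I J : Type} [Fintype I]
    [DecidableEq I] [Fintype J] [DecidableEq J] (s : I → ℝ)
    (σ : E →⋆ₙₐ[ℂ] CStarMatrix J J ℂ)
    (β : (∀ _ : Bool × I, CStarMatrix J J ℂ) →⋆ₐ[ℂ]
      CStarMatrix (Σ _ : Bool × I, J) (Σ _ : Bool × I, J) ℂ) :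
    Two E →⋆ₙₐ[ℂ] CStarMatrix (Σ _ : Bool × I, J) (Σ _ : Bool × I, J) ℂ where
  toFun x := β (fun k => σ (sel x k.1 (Real.nnabs (s k.2))))
  map_smul' c f := by
    rw [MonoidHom.id_apply, ← map_smul]
    congr 1
    funext i
    rcases i with ⟨i | i, j⟩
    · exact map_smul σ c (f.2 (Real.nnabs (s j)))
    · exact map_smul σ c (f.1 (Real.nnabs (s j)))
  map_zero' := by
    have h : (fun k : Bool × I => σ (sel (0 : Two E) k.1 (Real.nnabs (s k.2)))) = 0 := by
      funext i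
      rcases i with ⟨i | i, j⟩
      · exact map_zero σ
      · exact map_zero σ
    rw [h, map_zero]
  map_add' f g := by
    rw [← map_add]
    congr 1
    funext i
    rcases i with ⟨i | i, j⟩
    · exact map_add σ (f.2 (Real.nnabs (s j))) (g.2 (Real.nnabs (s j)))
    · exact map_add σ (f.1 (Real.nnabs (s j))) (g.1 (Real.nnabs (s j)))
  map_mul' f g := by
    rw [← map_mul]
    congr 1
    funext i
    rcases i with ⟨i | i, j⟩
    · exact map_mul σ (f.2 (Real.nnabs (s j))) (g.2 (Real.nnabs (s j)))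
    · exact map_mul σ (f.1 (Real.nnabs (s j))) (g.1 (Real.nnabs (s j)))
  map_star' f := by
    rw [← map_star]
    congr 1
    funext i
    rcases i with ⟨i | i, j⟩
    · exact map_star σ (f.2 (Real.nnabs (s j)))
    · exact map_star σ (f.1 (Real.nnabs (s j)))

/-- The column. -/
noncomputable def vv {I J : Type} (g : I → C₀(ℝ, ℝ)) (v : J → E) (k : Σ _ : Bool × I, J) :
    Two E :=
  if k.1.1 then (rt (g k.1.2) (v k.2), 0) else (0, rt (g k.1.2) (v k.2))

section

variable {I J : Type} [Fintype I] [Fintype J] (g : I → C₀(ℝ, ℝ)) (v : J → E)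

theorem col_fst : (∑ p, star (vv g v p) * vv g v p).1
    = ∑ i, ∑ p, star (rt (g i) (v p)) * rt (g i) (v p) := by
  rw [Prod.fst_sum, ← Finset.univ_sigma_univ, Finset.sum_sigma, Fintype.sum_prod_type,
    Fintype.sum_bool]
  have h1 : ∀ (i : I) (p : J), (star (vv g v ⟨(true, i), p⟩) * vv g v ⟨(true, i), p⟩).1
      = star (rt (g i) (v p)) * rt (g i) (v p) := fun i p => rfl
  have h2 : ∀ (i : I) (p : J), (star (vv g v ⟨(false, i), p⟩) * vv g v ⟨(false, i), p⟩).1
      = star (0 : C₀(ℝ≥0, E)) * 0 := fun i p => rfl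
  simp only [h1, h2, mul_zero, Finset.sum_const_zero, add_zero]

theorem col_snd : (∑ p, star (vv g v p) * vv g v p).2
    = ∑ i, ∑ p, star (rt (g i) (v p)) * rt (g i) (v p) := by
  rw [Prod.snd_sum, ← Finset.univ_sigma_univ, Finset.sum_sigma, Fintype.sum_prod_type,
    Fintype.sum_bool]
  have h1 : ∀ (i : I) (p : J), (star (vv g v ⟨(true, i), p⟩) * vv g v ⟨(true, i), p⟩).2
      = star (0 : C₀(ℝ≥0, E)) * 0 := fun i p => rfl
  have h2 : ∀ (i : I) (p : J), (star (vv g v ⟨(false, i), p⟩) * vv g v ⟨(false, i), p⟩).2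
      = star (rt (g i) (v p)) * rt (g i) (v p) := fun i p => rfl
  simp only [h1, h2, mul_zero, Finset.sum_const_zero, zero_add]

theorem col_le (hg : ∀ t, ∑ i, g i t ^ 2 ≤ 1) (hv : ‖∑ p, star (v p) * v p‖ ≤ 1) :
    ‖∑ i, ∑ p, star (rt (g i) (v p)) * rt (g i) (v p)‖ ≤ 1 := by
  refine norm_le_c0 _ 1 zero_le_one fun t => ?_
  have h1 : (∑ i, ∑ p, star (rt (g i) (v p)) * rt (g i) (v p)) t
      = ((∑ i, g i (t : ℝ) ^ 2 : ℝ) : ℂ) • ∑ p, star (v p) * v p := by
    rw [sum_apply_c0]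
    push_cast
    rw [Finset.sum_smul]
    refine Finset.sum_congr rfl fun i _ => ?_
    rw [sum_apply_c0, Finset.smul_sum]
    refine Finset.sum_congr rfl fun p _ => ?_
    rw [star_rt_mul]
    push_cast
    rfl
  rw [h1, norm_smul, Complex.norm_real, Real.norm_of_nonneg
    (Finset.sum_nonneg fun i _ => sq_nonneg _)]
  calc (∑ i, g i (t : ℝ) ^ 2) * ‖∑ p, star (v p) * v p‖ ≤ 1 * 1 :=
        mul_le_mul (hg _) hv (norm_nonneg _) zero_le_one
    _ = 1 := one_mul 1

end

/-- The estimate for one component. -/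
theorem comp_le {I J : Type} [Fintype I] [Fintype J] [DecidableEq J] (s : I → ℝ)
    (g : I → C₀(ℝ, ℝ)) (v : J → E) (σ : E →⋆ₙₐ[ℂ] CStarMatrix J J ℂ) (f : C₀(ℝ≥0, E)) (ε : ℝ)
    (hε : 0 < ε) (hg1 : ∀ t, ∑ i, g i t ^ 2 ≤ 1)
    (hf : ∀ t, ‖(∑ i, ((g i t ^ 2 : ℝ) : ℂ) • ev f (s i)) - ev f t‖ < ε / 2)
    (hσ : ∀ i, ‖qf (σ (f (Real.nnabs (s i)))) v - f (Real.nnabs (s i))‖ < ε / 4) :
    ‖(∑ i, qf (σ (f (Real.nnabs (s i)))) fun p => rt (g i) (v p)) - f‖ ≤ ε / 4 + ε / 2 := by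
  refine norm_le_c0 _ (ε / 4 + ε / 2) (by linarith) fun t => ?_
  have h3 : ((∑ i, qf (σ (f (Real.nnabs (s i)))) fun p => rt (g i) (v p)) - f) t
      = (∑ i, ((g i (t : ℝ) ^ 2 : ℝ) : ℂ) •
          (qf (σ (f (Real.nnabs (s i)))) v - f (Real.nnabs (s i))))
        + ((∑ i, ((g i (t : ℝ) ^ 2 : ℝ) : ℂ) • ev f (s i)) - ev f (t : ℝ)) := by
    have h4 : ((∑ i, qf (σ (f (Real.nnabs (s i)))) fun p => rt (g i) (v p)) - f) t
        = (∑ i, qf (σ (f (Real.nnabs (s i)))) fun p => rt (g i) (v p)) t - f t := rfl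
    have h5 : ev f (t : ℝ) = f t := by
      rw [ev_apply]
      congr 1
      ext
      rw [Real.coe_nnabs]
      exact abs_of_nonneg t.2
    rw [h4, h5, sum_apply_c0]
    simp only [qf_rt, ev_apply, smul_sub, Finset.sum_sub_distrib]
    abel
  rw [h3]
  refine (norm_add_le _ _).trans (add_le_add ?_ (hf (t : ℝ)).le)
  refine (norm_sum_le _ _).trans ?_
  calc ∑ i, ‖((g i (t : ℝ) ^ 2 : ℝ) : ℂ) •
        (qf (σ (f (Real.nnabs (s i)))) v - f (Real.nnabs (s i)))‖
      ≤ ∑ i, g i (t : ℝ) ^ 2 * (ε / 4) := by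
        refine Finset.sum_le_sum fun i _ => ?_
        rw [norm_smul, Complex.norm_real, Real.norm_of_nonneg (sq_nonneg _)]
        exact mul_le_mul_of_nonneg_left (hσ i).le (sq_nonneg _)
    _ = (∑ i, g i (t : ℝ) ^ 2) * (ε / 4) := (Finset.sum_mul _ _ _).symm
    _ ≤ 1 * (ε / 4) := mul_le_mul_of_nonneg_right (hg1 _) (by linarith)
    _ = ε / 4 := one_mul _

theorem t : S_PNT := by
  classical
  intro E _ hE F ε hε
  obtain ⟨I, _, _, s, g, hg0, hg1, hf⟩ := s_PU E
    (F.image (fun x => ev x.1) ∪ F.image (fun x => ev x.2)) (ε / 2) (by linarith)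
  obtain ⟨J, _, _, σ, v, hv, hσ⟩ := hE
    ((F ×ˢ (Finset.univ : Finset (Bool × I))).image
      fun q => sel q.1 q.2.1 (Real.nnabs (s q.2.2))) (ε / 4) (by linarith)
  obtain ⟨β, -, -, -, hβ⟩ := s_BD (Bool × I) (fun _ => J)
  have hσ' : ∀ x ∈ F, ∀ k i, ‖qf (σ (sel x k (Real.nnabs (s i)))) v - sel x k (Real.nnabs (s i))‖
      < ε / 4 := fun x hx k i => hσ _ (Finset.mem_image.2 ⟨(x, (k, i)),
        Finset.mem_product.2 ⟨hx, Finset.mem_univ _⟩, rfl⟩)
  refine ⟨Σ _ : Bool × I, J, inferInstance, inferInstance, bs s σ β, vv g v, ?_, ?_⟩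
  · rw [Prod.norm_def, col_fst, col_snd, max_self]
    exact col_le g v hg1 hv
  · intro x hx
    have h2 : qf (bs s σ β x) (vv g v)
        = ∑ k : Bool × I, qf (σ (sel x k.1 (Real.nnabs (s k.2)))) fun p => vv g v ⟨k, p⟩ :=
      hβ (Two E) (fun k : Bool × I => σ (sel x k.1 (Real.nnabs (s k.2)))) (vv g v)
    have hfst : (qf (bs s σ β x) (vv g v)).1
        = ∑ i, qf (σ (x.1 (Real.nnabs (s i)))) fun p => rt (g i) (v p) := by
      rw [h2, Prod.fst_sum, Fintype.sum_prod_type, Fintype.sum_bool]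
      have e1 : ∀ i : I, (qf (σ (sel x true (Real.nnabs (s i))))
          fun p => vv g v ⟨(true, i), p⟩).1
          = qf (σ (x.1 (Real.nnabs (s i)))) fun p => rt (g i) (v p) := fun i => by
        rw [qf_fst]
        rfl
      have e2 : ∀ i : I, (qf (σ (sel x false (Real.nnabs (s i))))
          fun p => vv g v ⟨(false, i), p⟩).1 = 0 := fun i => by
        rw [qf_fst]
        exact qf_zero _
      simp only [e1, e2, Finset.sum_const_zero, add_zero]
    have hsnd : (qf (bs s σ β x) (vv g v)).2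
        = ∑ i, qf (σ (x.2 (Real.nnabs (s i)))) fun p => rt (g i) (v p) := by
      rw [h2, Prod.snd_sum, Fintype.sum_prod_type, Fintype.sum_bool]
      have e1 : ∀ i : I, (qf (σ (sel x false (Real.nnabs (s i))))
          fun p => vv g v ⟨(false, i), p⟩).2
          = qf (σ (x.2 (Real.nnabs (s i)))) fun p => rt (g i) (v p) := fun i => by
        rw [qf_snd]
        rfl
      have e2 : ∀ i : I, (qf (σ (sel x true (Real.nnabs (s i))))
          fun p => vv g v ⟨(true, i), p⟩).2 = 0 := fun i => by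
        rw [qf_snd]
        exact qf_zero _
      simp only [e1, e2, Finset.sum_const_zero, zero_add]
    have hlt : ε / 4 + ε / 2 < ε := by linarith
    refine lt_of_le_of_lt ?_ hlt
    rw [Prod.norm_def, Prod.fst_sub, Prod.snd_sub, hfst, hsnd]
    refine max_le ?_ ?_
    · exact comp_le s g v σ x.1 ε hε hg1 (hf _ (Finset.mem_union_left _
        (Finset.mem_image.2 ⟨x, hx, rfl⟩))) fun i => hσ' x hx true i
    · exact comp_le s g v σ x.2 ε hε hg1 (hf _ (Finset.mem_union_right _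
        (Finset.mem_image.2 ⟨x, hx, rfl⟩))) fun i => hσ' x hx false i

end Pool.Agent.Helper83.CF2.PNT
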