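import Pool.Agent.Helper45.CF.GoalsD

/-!
# Project CF (MP_d97caa_an), second stage: EMX, compact metrizable spaces embed in the Hilbert cube
-/

set_option autoImplicit false

open TopologicalSpace Filter

namespace Pool.Agent.Helper83.CF2.EMX

open Pool.Agent.Helper45.CF

theorem t : S_EMX := by
  intro X _ _ _ _
  rcases isEmpty_or_nonempty X with hX | hX
  · exact ⟨⟨fun x => (hX.false x).elim, continuous_of_const fun x => (hX.false x).elim⟩,
      fun x => (hX.false x).elim⟩
  let _ := TopologicalSpace.metrizableSpaceMetric X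
  have hm : ∀ x y : X, min 1 (dist x y) ∈ Set.Icc (0 : ℝ) 1 := fun x y =>
    ⟨le_min zero_le_one dist_nonneg, min_le_left _ _⟩
  refine ⟨⟨fun x n => ⟨min 1 (dist x (denseSeq X n)), hm _ _⟩, ?_⟩, ?_⟩
  · refine continuous_pi fun n => Continuous.subtype_mk ?_ _
    exact continuous_const.min (continuous_id.dist continuous_const)
  · intro x y h
    by_contra hne
    have hd : 0 < dist x y := dist_pos.2 hne
    set ε := min 1 (dist x y / 2) with hε
    have hε0 : 0 < ε := lt_min one_pos (by linarith)
    obtain ⟨n, hn⟩ := (denseRange_denseSeq X).exists_dist_lt x hε0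
    have h1 : min 1 (dist x (denseSeq X n)) = min 1 (dist y (denseSeq X n)) :=
      congrArg Subtype.val (congrFun h n)
    have h2 : min 1 (dist x (denseSeq X n)) < ε := lt_of_le_of_lt (min_le_right _ _) hn
    rw [h1] at h2
    have h3 : dist y (denseSeq X n) < ε := by
      rcases min_lt_iff.1 h2 with h4 | h4
      · exact absurd h4 (not_lt.2 (min_le_left _ _))
      · exact h4
    have h5 : dist x y ≤ dist x (denseSeq X n) + dist y (denseSeq X n) :=
      dist_triangle_right _ _ _
    have h6 : ε ≤ dist x y / 2 := min_le_right _ _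
    linarith

end Pool.Agent.Helper83.CF2.EMX
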