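import Pool.Agent.Helper45.CF.GoalsC
import Pool.Agent.Helper39.Uct.Main

/-!
# Project CF, stage 2: the goal `S_TIE`

Tietze for values in a C*-algebra.
-/

open scoped ComplexOrder ZeroAtInfty Topology ComplexConjugate
open TopologicalSpace Filter

namespace Pool.Agent.Helper83.CF2

open Pool.Agent.Helper34.CAR Pool.Agent.Helper39.CR Pool.Agent.Helper45.CF

/-- TIE. Tietze for values in a C*-algebra. -/
theorem t : S_TIE := by
  intro X Q M _ _ _ _ _ _ e he g
  have hcl : IsClosed (Set.range (pull M e)) :=
    Pool.Agent.Helper39.Uct.t_RC C(Q, M) C(X, M) (pull M e)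
  have hd : g ∈ closure (Set.range (pull M e)) := by
    rw [Metric.mem_closure_iff]
    intro ε hε
    have hε2 : 0 < ε / 2 := half_pos hε
    obtain ⟨f, hf⟩ := exists_continuous_forall_mem_convex_of_local_const
      (t := fun q : Q => ⋂ x : X, ⋂ _ : e x = q, Metric.ball (g x) (ε / 2))
      (fun q => convex_iInter₂ fun x _ => convex_ball (g x) (ε / 2)) (by
        intro q₀
        by_cases hq : ∃ x₀, e x₀ = q₀
        · obtain ⟨x₀, rfl⟩ := hq
          refine ⟨g x₀, ?_⟩
          have hK : IsClosed {x : X | ε / 2 ≤ dist (g x₀) (g x)} :=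
            isClosed_le continuous_const (continuous_const.dist g.continuous)
          have hK2 : IsClosed (e '' {x : X | ε / 2 ≤ dist (g x₀) (g x)}) :=
            (hK.isCompact.image e.continuous).isClosed
          have hn : e x₀ ∈ (e '' {x : X | ε / 2 ≤ dist (g x₀) (g x)})ᶜ := by
            rintro ⟨x, hx, hxe⟩
            have h1 : x = x₀ := he hxe
            rw [h1, Set.mem_ofPred_eq, dist_self] at hx
            linarith
          filter_upwards [hK2.isOpen_compl.mem_nhds hn] with q hq
          simp only [Set.mem_iInter]
          intro x hx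
          by_contra hc
          apply hq
          refine ⟨x, ?_, hx⟩
          rw [Metric.mem_ball, not_lt] at hc
          exact hc
        · refine ⟨0, ?_⟩
          have hR : IsClosed (Set.range e) := (isCompact_range e.continuous).isClosed
          have hn : q₀ ∈ (Set.range e)ᶜ := by
            rintro ⟨x, hx⟩
            exact hq ⟨x, hx⟩
          filter_upwards [hR.isOpen_compl.mem_nhds hn] with q hq2
          simp only [Set.mem_iInter]
          intro x hx
          exact absurd ⟨x, hx⟩ hq2)
    refine ⟨pull M e f, ⟨f, rfl⟩, ?_⟩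
    refine lt_of_le_of_lt ((ContinuousMap.dist_le hε2.le).2 fun x => ?_) (half_lt_self hε)
    have h1 := hf (e x)
    simp only [Set.mem_iInter] at h1
    have h2 := h1 x rfl
    rw [Metric.mem_ball, dist_comm] at h2
    exact h2.le
  rw [hcl.closure_eq] at hd
  exact hd

end Pool.Agent.Helper83.CF2
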